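import Pool.Agent.helper94.Aff.Cert.Top

/-!
# Affine copies of {0,1,3} in a set of n integers: the constant is 1/3
-/

open Filter

namespace Pool.Agent.Results.MP_b15886_co.AffineCopiesConstant

/-- `T A`: the number of pairs `(a, d)` of integers with `d ≠ 0` and `a, a + d, a + 3 d ∈ A`. -/
noncomputable def T (A : Finset ℤ) : ℕ :=
  Set.ncard {p : ℤ × ℤ | p.2 ≠ 0 ∧ p.1 ∈ A ∧ p.1 + p.2 ∈ A ∧ p.1 + 3 * p.2 ∈ A}

/-- `M n`: the maximum of `T A` over the sets `A` of `n` integers. -/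
noncomputable def M (n : ℕ) : ℕ := sSup {t : ℕ | ∃ A : Finset ℤ, A.card = n ∧ T A = t}

theorem T_eq (A : Finset ℤ) : T A = Aff.TT A := by
  classical
  unfold T Aff.TT
  have h : {p : ℤ × ℤ | p.2 ≠ 0 ∧ p.1 ∈ A ∧ p.1 + p.2 ∈ A ∧ p.1 + 3 * p.2 ∈ A} =
      ((((A ×ˢ A).filter fun p => p.1 ≠ p.2 ∧ p.1 + 3 * (p.2 - p.1) ∈ A).image
        fun p : ℤ × ℤ => (p.1, p.2 - p.1) : Finset (ℤ × ℤ)) : Set (ℤ × ℤ)) := by
    ext ⟨a, d⟩
    simp only [Set.mem_ofPred_eq, Finset.coe_image, Set.mem_image, Finset.mem_coe,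
      Finset.mem_filter, Finset.mem_product, Prod.exists, Prod.mk.injEq]
    constructor
    · rintro ⟨h0, h1, h2, h3⟩
      refine ⟨a, a + d, ⟨⟨h1, h2⟩, fun h => h0 ?_, ?_⟩, rfl, ?_⟩
      · linarith
      · have : a + 3 * (a + d - a) = a + 3 * d := by ring
        rw [this]
        exact h3
      · ring
    · rintro ⟨x, y, ⟨⟨h1, h2⟩, h3, h4⟩, rfl, rfl⟩
      refine ⟨fun h => h3 ?_, h1, ?_, h4⟩
      · linarith
      · have : x + (y - x) = y := by ring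
        rw [this]
        exact h2
  rw [h, Set.ncard_coe_finset, Finset.card_image_of_injective]
  rintro ⟨x, y⟩ ⟨x', y'⟩ h5
  simp only [Prod.mk.injEq] at h5 ⊢
  obtain ⟨h6, h7⟩ := h5
  exact ⟨h6, by linarith⟩

theorem M_eq (n : ℕ) : M n = Aff.Mx n := by
  unfold M Aff.Mx
  simp only [T_eq]

theorem result :
    (∀ n : ℕ, IsGreatest {t : ℕ | ∃ A : Finset ℤ, A.card = n ∧ T A = t} (M n) ∧
      (n : ℝ) ^ 2 / 3 - n ≤ M n ∧ (M n : ℝ) ≤ (n : ℝ) ^ 2 / 3 + 13 * n) ∧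
    Tendsto (fun n : ℕ => (M n : ℝ) / (n : ℝ) ^ 2) atTop (nhds (1 / 3)) ∧
    limsup (fun n : ℕ => (M n : ℝ) / (n : ℝ) ^ 2) atTop = 1 / 3 := by
  have hG := Aff.Pk.goalAll
  have hT := Aff.tendsto_of (Aff.T0_le_Nm0 (Aff.Chk.FIc_of_goal hG))
  refine ⟨fun n => ⟨⟨?_, ?_⟩, ?_, ?_⟩, ?_, ?_⟩
  · obtain ⟨A, hA, hM⟩ := Aff.Mx_mem n
    exact ⟨A, hA, by rw [T_eq, hM, M_eq]⟩
  · rintro t ⟨A, hA, rfl⟩
    rw [T_eq, M_eq]
    exact Aff.le_Mx hA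
  · rw [M_eq]
    exact Aff.le_Mx_real n
  · rw [M_eq]
    exact Aff.Mx_le_of (Aff.T0_le_Nm0 (Aff.Chk.FIc_of_goal hG))
  · simpa only [M_eq] using hT
  · simpa only [M_eq] using hT.limsup_eq

end Pool.Agent.Results.MP_b15886_co.AffineCopiesConstant
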